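import Pool.Agent.Run7.h420.TM.Stm

/-!
Project TM, piece HOM: a cocycle whose transfer map splits is cohomologous to a homomorphism.
-/

set_option autoImplicit false

namespace Pool.Agent.Run7.h420.TM

open MeasureTheory Filter Topology Set

theorem t_HOM : S_HOM := by
  intro G X L _ _ _ _ _ _ μ w φ hM hw hφ A B hA hB hsplit
  have hprob : IsProbabilityMeasure μ := hM.prob
  have key : ∀ g : G, ∃ d : L, ∀ᵐ y ∂μ, (B (g • y))⁻¹ * w g y * B y = d := by
    intro g
    have hmp : MeasurePreserving (Prod.map (fun x : X => g • x) (fun x : X => g • x))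
        (μ.prod μ) (μ.prod μ) := (hM.pres g).prod (hM.pres g)
    have h2 : ∀ᵐ p ∂(μ.prod μ), φ (g • p) = B (g • p.2) * A (g • p.1) :=
      hmp.quasiMeasurePreserving.ae hsplit
    have h3 : ∀ᵐ p ∂(μ.prod μ),
        (B (g • p.2))⁻¹ * w g p.2 * B p.2 = A (g • p.1) * w g p.1 * (A p.1)⁻¹ := by
      filter_upwards [hφ g, hsplit, h2] with p e1 e2 e3
      rw [e2, e3] at e1
      have e4 : w g p.2 * B p.2 = B (g • p.2) * A (g • p.1) * w g p.1 * (A p.1)⁻¹ := by
        rw [← e1]; group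
      rw [mul_assoc, e4]; group
    have h4 := Measure.ae_ae_of_ae_prod h3
    obtain ⟨x, hx⟩ := h4.exists
    refine ⟨A (g • x) * w g x * (A x)⁻¹, ?_⟩
    filter_upwards [hx] with y hy
    exact hy
  choose δ hδ using key
  have hmul : ∀ g h : G, δ (g * h) = δ g * δ h := by
    intro g h
    have h1 : ∀ᵐ y ∂μ, (B (g • (h • y)))⁻¹ * w g (h • y) * B (h • y) = δ g :=
      (hM.pres h).quasiMeasurePreserving.ae (hδ g)
    obtain ⟨y, e1, e2, e3⟩ := ((hδ (g * h)).and (h1.and (hδ h))).exists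
    rw [← e1, ← e2, ← e3, hw.mul g h y, mul_smul]
    group
  refine ⟨B, MonoidHom.mk' δ hmul, hB, fun g => ?_⟩
  filter_upwards [hδ g] with y hy
  show w g y = B (g • y) * δ g * (B y)⁻¹
  rw [← hy]; group

end Pool.Agent.Run7.h420.TM
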